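import Pool.Agent.TF.Sector

/-! Families of compact sets with ccc neighbourhoods: basic definitions and the counting lemma. -/

set_option autoImplicit false

namespace TFR

open Set Topology Filter Cardinal TF

universe u v w

/-- Pairwise disjoint families of open sets which meet `B` are countable. -/
def CCC {X : Type u} [TopologicalSpace X] (B : Set X) : Prop :=
  ∀ S : Set (Set X), (∀ W ∈ S, IsOpen W ∧ (W ∩ B).Nonempty) → S.PairwiseDisjoint id → S.Countable

theorem CCC.indexed {X : Type u} [TopologicalSpace X] {B : Set X} (h : CCC B) {J : Type w}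
    (S : Set J) (W : J → Set X) (hW : ∀ j ∈ S, IsOpen (W j))
    (hd : ∀ i ∈ S, ∀ j ∈ S, i ≠ j → Disjoint (W i) (W j)) :
    {j | j ∈ S ∧ (W j ∩ B).Nonempty}.Countable := by
  apply Set.countable_of_injective_of_countable_image (f := W)
  · rintro i ⟨hi, y, hy, -⟩ j ⟨hj, -⟩ hij
    by_contra hne
    exact Set.disjoint_left.1 (hd i hi j hj hne) hy (hij ▸ hy)
  · apply h
    · rintro _ ⟨j, ⟨hj, hne⟩, rfl⟩
      exact ⟨hW j hj, hne⟩
    · rintro _ ⟨i, ⟨hi, -⟩, rfl⟩ _ ⟨j, ⟨hj, -⟩, rfl⟩ hne
      exact hd i hi j hj fun h => hne (by rw [h])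

/-- A relatively discrete family of compact sets `K i` with ccc open neighbourhoods `B i`. -/
structure Sys {X : Type u} [TopologicalSpace X] {I : Type v} (K B : I → Set X) : Prop where
  comp : ∀ i, IsCompact (K i)
  rel : RelDisc K
  opn : ∀ i, IsOpen (B i)
  sub : ∀ i, K i ⊆ B i
  ccc : ∀ i, CCC (B i)

variable {X : Type u} [TopologicalSpace X] {I : Type v} {K B : I → Set X}

theorem Sys.comap (h : Sys K B) {J : Type w} (f : J → I) (hf : Function.Injective f) :
    Sys (fun j => K (f j)) (fun j => B (f j)) where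
  comp := fun j => h.comp _
  rel := by
    intro j x hx
    obtain ⟨V, hV, hj⟩ := h.rel (f j) x hx
    exact ⟨V, hV, fun l hl => hf (hj (f l) hl)⟩
  opn := fun j => h.opn _
  sub := fun j => h.sub _
  ccc := fun j => h.ccc _

/-- the union of the neighbourhoods with index in `A` -/
def MM (B : I → Set X) (A : Set I) : Set X := ⋃ b ∈ A, B b

omit [TopologicalSpace X] in
theorem mem_MM {A : Set I} {x : X} : x ∈ MM B A ↔ ∃ b ∈ A, x ∈ B b := by
  simp [MM]

omit [TopologicalSpace X] in
theorem MM_mono {A A' : Set I} (h : A ⊆ A') : MM B A ⊆ MM B A' :=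
  biUnion_subset_biUnion_left h

omit [TopologicalSpace X] in
theorem subset_MM {A : Set I} {i : I} (h : i ∈ A) : B i ⊆ MM B A := fun _ hx =>
  mem_MM.2 ⟨i, h, hx⟩

/-- witnesses: open sets `U i`, `i ∈ C \ A` -/
def Wit (K B : I → Set X) (A C : Set I) (U : I → Set X) : Prop :=
  (∀ i ∈ C, i ∉ A → IsOpen (U i) ∧ U i ⊆ B i ∧ (K i \ U i).Finite ∧ Disjoint (U i) (MM B A)) ∧
  ∀ i ∈ C, ∀ j ∈ C, i ∉ A → j ∉ A → i ≠ j → Disjoint (U i) (U j)

def Free (K B : I → Set X) (A C : Set I) : Prop := ∃ U, Wit K B A C U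

/-- the bad indices -/
def Phi (K B : I → Set X) (A : Set I) : Set I := {i | (K i ∩ closure (MM B A)).Infinite}

theorem sax [T2Space X] [CompletelyNormalSpace X] [LocallyCompactSpace X]
    [LocallyConnectedSpace X] [FirstCountableTopology X] (h : Sys K B) {T : Type w}
    (A : T → Set I) (f : T → I) (hf : Function.Injective f)
    (hbad : ∀ t, f t ∈ Phi K B (A t)) :
    ∃ b : T → I, (∀ t, b t ∈ A t) ∧ ∀ i, {t | b t = i}.Countable := by
  have hacc : ∀ t, ∃ e ∈ K (f t) ∩ closure (MM B (A t)),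
      AccPt e (𝓟 (K (f t) ∩ closure (MM B (A t)))) := fun t =>
    Set.Infinite.exists_accPt_of_subset_isCompact (hbad t)
      ((h.comp (f t)).inter_right isClosed_closure) subset_rfl
  choose e he hacc using hacc
  obtain ⟨N, V, hNo, hHN, hVo, hKV, hVd, -⟩ := sector (K := fun t => K (f t))
    (H := fun t => {e t}) (fun t => h.comp _) (h.comap f hf).rel (fun t => isClosed_singleton)
    (fun t => singleton_subset_iff.2 (he t).1) (by
      intro t
      obtain ⟨x, hx⟩ := (𝓝 (e t)).exists_antitone_basis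
      refine ⟨fun n => (interior (x n))ᶜ, fun n => isOpen_interior.isClosed_compl, ?_, ?_⟩
      · intro n
        rw [Set.disjoint_singleton_right]
        intro hn
        exact hn (mem_interior_iff_mem_nhds.2 (hx.1.mem_of_mem trivial))
      · rintro y ⟨-, hy⟩
        have : ({y}ᶜ : Set X) ∈ 𝓝 (e t) := isClosed_singleton.isOpen_compl.mem_nhds fun h =>
          hy (by rw [Set.mem_singleton_iff.1 h]; exact Set.mem_singleton _)
        obtain ⟨n, -, hn⟩ := hx.1.mem_iff.1 this
        exact mem_iUnion.2 ⟨n, fun hy' => hn (interior_subset hy') rfl⟩)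
  have hb : ∀ t, ∃ b ∈ A t, (V t ∩ B b).Nonempty := by
    intro t
    obtain ⟨y, ⟨hyN, hyK, hyM⟩, hye⟩ := accPt_iff_nhds.1 (hacc t) (N t)
      ((hNo t).mem_nhds (hHN t rfl))
    have hyV : y ∈ V t := hKV t ⟨⟨hyK, hyN⟩, hye⟩
    obtain ⟨z, hzV, hz⟩ := mem_closure_iff.1 hyM (V t) (hVo t) hyV
    obtain ⟨b, hb, hzb⟩ := mem_MM.1 hz
    exact ⟨b, hb, z, hzV, hzb⟩
  choose b hbA hbV using hb
  refine ⟨b, hbA, fun i => ?_⟩
  refine ((h.ccc i).indexed univ V (fun t _ => hVo t) fun s _ t _ hst => hVd s t hst).mono ?_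
  rintro t rfl
  exact ⟨trivial, hbV t⟩

/-- The set of bad indices is not larger than `A`. -/
theorem mk_Phi_le [T2Space X] [CompletelyNormalSpace X] [LocallyCompactSpace X]
    [LocallyConnectedSpace X] [FirstCountableTopology X] (h : Sys K B) (A : Set I)
    {c : Cardinal.{v}} (hc : ℵ₀ ≤ c) (hA : #A ≤ c) : #(Phi K B A) ≤ c := by
  obtain ⟨b, hbA, hbc⟩ := sax h (T := Phi K B A) (fun _ => A) Subtype.val
    Subtype.val_injective fun t => t.2
  have h1 : #(Phi K B A) ≤ #A * ℵ₀ := by
    have : #(Phi K B A) = Cardinal.sum fun a : A => #{t : Phi K B A // b t = a} := by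
      rw [← Cardinal.mk_sigma]
      refine Cardinal.mk_congr ⟨fun t => ⟨⟨b t, hbA t⟩, t, rfl⟩, fun p => p.2.1, fun t => rfl, ?_⟩
      rintro ⟨⟨a, ha⟩, t, ht⟩
      dsimp only at ht
      subst ht
      rfl
    rw [this]
    refine (Cardinal.sum_le_sum _ (fun _ => ℵ₀) fun a => ?_).trans ?_
    · exact (hbc a).le_aleph0
    · simp
  calc #(Phi K B A) ≤ #A * ℵ₀ := h1
    _ ≤ c * c := mul_le_mul' hA hc
    _ = c := Cardinal.mul_eq_self hc

/-- a set of indices which is closed under hits is free -/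
theorem Wit.of_hitClosed {A C : Set I} {U : I → Set X} (h : Wit K B ∅ C U)
    (hA : ∀ i ∈ C, ∀ b ∈ A, (U i ∩ B b).Nonempty → i ∈ A) : Wit K B A C U := by
  refine ⟨fun i hi hiA => ?_, fun i hi j hj _ _ hij => h.2 i hi j hj (by simp) (by simp) hij⟩
  obtain ⟨h1, h2, h3, -⟩ := h.1 i hi (by simp)
  refine ⟨h1, h2, h3, ?_⟩
  rw [Set.disjoint_left]
  intro x hx hxM
  obtain ⟨b, hb, hxb⟩ := mem_MM.1 hxM
  exact hiA (hA i hi b hb ⟨x, hx, hxb⟩)

theorem Wit.mono {A C C' : Set I} {U : I → Set X} (h : Wit K B A C U) (hC : C' ⊆ C) :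
    Wit K B A C' U :=
  ⟨fun i hi => h.1 i (hC hi), fun i hi j hj => h.2 i (hC hi) j (hC hj)⟩

/-- hits are countable -/
theorem Wit.hits (hS : Sys K B) {C : Set I} {U : I → Set X} (h : Wit K B ∅ C U) (b : I) :
    {i | i ∈ C ∧ (U i ∩ B b).Nonempty}.Countable :=
  (hS.ccc b).indexed C U (fun i hi => (h.1 i hi (by simp)).1)
    fun i hi j hj hij => h.2 i hi j hj (by simp) (by simp) hij

/-- countable families are free -/
theorem free_countable [CompletelyNormalSpace X] [T2Space X] (h : Sys K B) {C : Set I}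
    (hC : C.Countable) : Free K B ∅ C := by
  classical
  have := hC.to_subtype
  have hE : Expands fun i : C => K i := by
    refine sigma_lemma (h.comap (Subtype.val : C → I) Subtype.val_injective).rel
      (fun k i : C => if k = i then K i else ∅) ?_ ?_ ?_ ?_
    · intro k i
      split_ifs
      · exact subset_rfl
      · exact empty_subset _
    · intro k i x hx hxc
      split_ifs at hxc ⊢
      · exact hx
      · simp at hxc
    · intro i x hx
      exact mem_iUnion.2 ⟨i, by simpa using hx⟩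
    · intro k
      refine ⟨fun i => if k = i then univ else ∅, ?_, ?_, ?_⟩
      · intro i
        dsimp only
        split_ifs
        · exact isOpen_univ
        · exact isOpen_empty
      · intro i
        dsimp only
        split_ifs
        · exact subset_univ _
        · exact empty_subset _
      · intro i j hij
        dsimp only
        split_ifs with h1 h2
        · exact absurd (h1.symm.trans h2) hij
        · simp
        · simp
        · simp
  obtain ⟨U, hUo, hKU, hUd⟩ := hE
  refine ⟨fun i => if hi : i ∈ C then U ⟨i, hi⟩ ∩ B i else ∅, ?_, ?_⟩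
  · intro i hi _
    simp only [hi, dite_true]
    refine ⟨(hUo _).inter (h.opn i), inter_subset_right, ?_, ?_⟩
    · have : K i \ (U ⟨i, hi⟩ ∩ B i) = ∅ := by
        rw [Set.sdiff_eq_empty]
        exact subset_inter (hKU ⟨i, hi⟩) (h.sub i)
      rw [this]
      exact finite_empty
    · simp [MM]
  · intro i hi j hj _ _ hij
    simp only [hi, hj, dite_true]
    exact (hUd ⟨i, hi⟩ ⟨j, hj⟩ fun h => hij (congrArg Subtype.val h)).mono inter_subset_left
      inter_subset_left

end TFR
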