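import Pool.Agent.TF.Sector

/-! Relatively discrete families of non-discrete sets. -/

set_option autoImplicit false

namespace TFR

open Set Topology Filter TF

universe u v w

variable {X : Type u} [TopologicalSpace X]

theorem sector_point [T2Space X] [CompletelyNormalSpace X] [LocallyCompactSpace X]
    [LocallyConnectedSpace X] [FirstCountableTopology X] {I : Type v} {K : I → Set X} (e : I → X)
    (hK : ∀ i, IsCompact (K i)) (hd : RelDisc K) (he : ∀ i, e i ∈ K i) :
    ∃ N V : I → Set X, (∀ i, IsOpen (N i)) ∧ (∀ i, e i ∈ N i) ∧ (∀ i, IsOpen (V i)) ∧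
      (∀ i, (K i ∩ N i) \ {e i} ⊆ V i) ∧ ∀ i j, i ≠ j → Disjoint (V i) (V j) := by
  obtain ⟨N, V, hNo, hHN, hVo, hKV, hVd, -⟩ := sector (K := K) (H := fun t => {e t}) hK hd
    (fun t => isClosed_singleton) (fun t => singleton_subset_iff.2 (he t)) (by
      intro t
      obtain ⟨x, hx⟩ := (𝓝 (e t)).exists_antitone_basis
      refine ⟨fun n => (interior (x n))ᶜ, fun n => isOpen_interior.isClosed_compl, ?_, ?_⟩
      · intro n
        rw [Set.disjoint_singleton_right]
        intro hn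
        exact hn (mem_interior_iff_mem_nhds.2 (hx.1.mem_of_mem trivial))
      · rintro y ⟨-, hy⟩
        have : ({y}ᶜ : Set X) ∈ 𝓝 (e t) := isClosed_singleton.isOpen_compl.mem_nhds fun h =>
          hy (by rw [Set.mem_singleton_iff.1 h]; exact Set.mem_singleton _)
        obtain ⟨n, -, hn⟩ := hx.1.mem_iff.1 this
        exact mem_iUnion.2 ⟨n, fun hy' => hn (interior_subset hy') rfl⟩)
  exact ⟨N, V, hNo, fun i => hHN i rfl, hVo, hKV, hVd⟩

/-- **Separation up to density.** -/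
theorem dense_families [T2Space X] [CompletelyNormalSpace X] [LocallyCompactSpace X]
    [LocallyConnectedSpace X] [FirstCountableTopology X] {I : Type v} {F A : I → Set X}
    (hF : RelDisc F) (hAc : ∀ i, (A i).Countable)
    (hAF : ∀ i, ∀ x ∈ A i, x ∈ F i ∧ x ∈ closure (F i \ {x})) :
    ∃ W : I → Set X, (∀ i, IsOpen (W i)) ∧ (∀ i, ∀ x ∈ A i, x ∈ closure ((F i ∩ W i) \ {x})) ∧
      ∀ i j, i ≠ j → Disjoint (W i) (W j) := by
  classical
  -- the indices with nonempty `A i`
  set I' := {i // (A i).Nonempty} with hI'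
  have h1 : ∀ i : I', ∃ e : ℕ → X, A i = range e := fun i => (hAc i).exists_eq_range i.2
  choose e he using h1
  have heA : ∀ (i : I') (n : ℕ), e i n ∈ A i := fun i n => by rw [he i]; exact ⟨n, rfl⟩
  have h2 : ∀ (i : I') (n : ℕ), ∃ s : ℕ → X, (∀ k, s k ∈ F i \ {e i n}) ∧
      Tendsto s atTop (𝓝 (e i n)) := fun i n =>
    mem_closure_iff_seq_limit.1 (hAF i _ (heA i n)).2
  choose s hs hst using h2
  have h3 : ∀ n, ∃ N V : I' → Set X, (∀ i, IsOpen (N i)) ∧ (∀ i, e i n ∈ N i) ∧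
      (∀ i, IsOpen (V i)) ∧ (∀ i, (insert (e i n) (range (s i n)) ∩ N i) \ {e i n} ⊆ V i) ∧
      ∀ i j, i ≠ j → Disjoint (V i) (V j) := by
    intro n
    refine sector_point (fun i => e i n) (fun i => (hst i n).isCompact_insert_range) ?_
      fun i => mem_insert _ _
    have hF' : RelDisc fun i : I' => F i := by
      intro i x hx
      obtain ⟨V, hV, hj⟩ := hF i x hx
      exact ⟨V, hV, fun j hj' => Subtype.ext (hj j hj')⟩
    refine hF'.mono fun i => ?_
    rintro x (rfl | ⟨k, rfl⟩)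
    · exact (hAF i _ (heA i n)).1
    · exact (hs i n k).1
  choose N V hNo heN hVo hKV hVd using h3
  have h4 : ∀ i n, ∃ k0, ∀ k, s i n (k0 + k) ∈ V n i := by
    intro i n
    obtain ⟨k0, hk0⟩ := eventually_atTop.1 ((hst i n).eventually ((hNo n i).mem_nhds (heN n i)))
    refine ⟨k0, fun k => hKV n i ⟨⟨mem_insert_of_mem _ ⟨_, rfl⟩, hk0 _ (Nat.le_add_right _ _)⟩, ?_⟩⟩
    exact (hs i n _).2
  choose k0 hk0 using h4
  set L : ℕ × ℕ → I' → Set X := fun p i => {s i p.1 (k0 i p.1 + p.2)} with hL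
  have hF'' : RelDisc fun i : I' => ⋃ p, L p i := by
    have hF' : RelDisc fun i : I' => F i := by
      intro i x hx
      obtain ⟨V, hV, hj⟩ := hF i x hx
      exact ⟨V, hV, fun j hj' => Subtype.ext (hj j hj')⟩
    refine hF'.mono fun i => iUnion_subset fun p => ?_
    exact singleton_subset_iff.2 (hs i _ _).1
  obtain ⟨W, hWo, hLW, hWd⟩ := sigma_lemma hF'' L (fun p i => subset_iUnion (fun p => L p i) p)
    (by
      intro p i x _ hx
      rwa [isClosed_singleton.closure_eq] at hx) (fun i => subset_rfl) (fun p => by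
      refine ⟨V p.1, hVo p.1, fun i => singleton_subset_iff.2 (hk0 i p.1 p.2), hVd p.1⟩)
  refine ⟨fun i => if hi : (A i).Nonempty then W ⟨i, hi⟩ else ∅, ?_, ?_, ?_⟩
  · intro i
    dsimp only
    split_ifs
    · exact hWo _
    · exact isOpen_empty
  · intro i x hx
    have hi : (A i).Nonempty := ⟨x, hx⟩
    simp only [hi, dite_true]
    have hx' : x ∈ range (e ⟨i, hi⟩) := by rw [← he ⟨i, hi⟩]; exact hx
    obtain ⟨n, rfl⟩ := hx'
    rw [mem_closure_iff_seq_limit]
    refine ⟨fun k => s ⟨i, hi⟩ n (k0 ⟨i, hi⟩ n + k), fun k => ⟨⟨(hs ⟨i, hi⟩ n _).1, ?_⟩,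
      (hs ⟨i, hi⟩ n _).2⟩, ?_⟩
    · exact hLW ⟨i, hi⟩ (mem_iUnion.2 ⟨(n, k), rfl⟩)
    · refine (hst ⟨i, hi⟩ n).comp ?_
      exact tendsto_atTop_mono (fun k => Nat.le_add_left k _) tendsto_id
  · intro i j hij
    dsimp only
    split_ifs with h1 h2
    · exact hWd _ _ fun h => hij (congrArg Subtype.val h)
    · simp
    · simp
    · simp

end TFR
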