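import Pool.Agent.TFR.Main

/-! Theorem R for locally ccc spaces; collectionwise Hausdorff spaces; Lindelöf and paracompact
families. -/

set_option autoImplicit false

namespace TFR

open Set Topology Filter Cardinal TF

universe u v w

variable {X : Type u} [TopologicalSpace X]

/-- every point has a neighbourhood in which disjoint families of open sets are countable -/
def LocCCC (X : Type u) [TopologicalSpace X] : Prop :=
  ∀ x : X, ∃ V ∈ 𝓝 x, ∀ S : Set (Set X), (∀ W ∈ S, IsOpen W ∧ W.Nonempty ∧ W ⊆ V) →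
    S.PairwiseDisjoint id → S.Countable

theorem CCC.union {ι : Type w} [Countable ι] {B : ι → Set X} (h : ∀ i, CCC (B i)) :
    CCC (⋃ i, B i) := by
  intro S hS hd
  have : S = ⋃ i, {W ∈ S | (W ∩ B i).Nonempty} := by
    ext W
    constructor
    · intro hW
      obtain ⟨y, hy, hyB⟩ := (hS W hW).2
      obtain ⟨i, hi⟩ := mem_iUnion.1 hyB
      exact mem_iUnion.2 ⟨i, hW, y, hy, hi⟩
    · intro hW
      obtain ⟨i, hi⟩ := mem_iUnion.1 hW
      exact hi.1
  rw [this]
  refine countable_iUnion fun i => h i _ (fun W hW => ⟨(hS W hW.1).1, hW.2⟩) ?_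
  exact hd.subset fun W hW => hW.1

theorem CCC.of_local {V B : Set X} (hB : IsOpen B) (hBV : B ⊆ V)
    (h : ∀ S : Set (Set X), (∀ W ∈ S, IsOpen W ∧ W.Nonempty ∧ W ⊆ V) →
      S.PairwiseDisjoint id → S.Countable) : CCC B := by
  intro S hS hd
  have h1 : ((fun W => W ∩ B) '' S).Countable := by
    apply h
    · rintro _ ⟨W, hW, rfl⟩
      exact ⟨(hS W hW).1.inter hB, (hS W hW).2, inter_subset_right.trans hBV⟩
    · rintro _ ⟨W, hW, rfl⟩ _ ⟨W', hW', rfl⟩ hne
      exact (hd hW hW' fun h => hne (by rw [h])).mono inter_subset_left inter_subset_left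
  refine Set.countable_of_injective_of_countable_image (f := fun W => W ∩ B) ?_ h1
  intro W hW W' hW' he
  by_contra hne
  obtain ⟨y, hy⟩ := (hS W hW).2
  have hy' : y ∈ W' ∩ B := by
    have : y ∈ (fun W => W ∩ B) W := hy
    rw [he] at this
    exact this
  exact Set.disjoint_left.1 (hd hW hW' hne) hy.1 hy'.1

theorem LocCCC.exists_nbhd (h : LocCCC X) {K : Set X} (hK : IsCompact K) :
    ∃ B, IsOpen B ∧ K ⊆ B ∧ CCC B := by
  choose V hV hVc using h
  obtain ⟨t, ht⟩ := hK.elim_nhds_subcover' (fun x _ => interior (V x)) fun x _ =>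
    interior_mem_nhds.2 (hV x)
  refine ⟨⋃ x : t, interior (V ((x : K) : X)), isOpen_iUnion fun _ => isOpen_interior, ?_, ?_⟩
  · intro y hy
    obtain ⟨x, hx, hxy⟩ := mem_iUnion₂.1 (ht hy)
    exact mem_iUnion.2 ⟨⟨x, hx⟩, hxy⟩
  · exact CCC.union fun x => CCC.of_local isOpen_interior interior_subset (hVc _)

/-- Theorem R for locally ccc spaces. -/
theorem theorem_R' [T2Space X] [CompletelyNormalSpace X] [LocallyCompactSpace X]
    [LocallyConnectedSpace X] [FirstCountableTopology X] (hX : LocCCC X) {I : Type v}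
    {K : I → Set X} (hK : ∀ i, IsCompact (K i)) (hrel : RelDisc K) :
    ∃ U : I → Set X, (∀ i, IsOpen (U i)) ∧ (∀ i, (K i \ U i).Finite) ∧
      ∀ i j, i ≠ j → Disjoint (U i) (U j) := by
  choose B hBo hKB hB using fun i => hX.exists_nbhd (hK i)
  obtain ⟨U, h1, -, h2, h3⟩ := theorem_R (K := K) (B := B) ⟨hK, hrel, hBo, hKB, hB⟩
  exact ⟨U, h1, h2, h3⟩

/-- every point has a neighbourhood which meets at most one member -/
def Disc {I : Type v} (F : I → Set X) : Prop :=
  ∀ x : X, ∃ V ∈ 𝓝 x, ∀ i j, (V ∩ F i).Nonempty → (V ∩ F j).Nonempty → i = j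

theorem Disc.mono {I : Type v} {F G : I → Set X} (h : Disc G) (hFG : ∀ i, F i ⊆ G i) :
    Disc F := by
  intro x
  obtain ⟨V, hV, hij⟩ := h x
  exact ⟨V, hV, fun i j hi hj => hij i j (hi.mono (inter_subset_inter_right _ (hFG i)))
    (hj.mono (inter_subset_inter_right _ (hFG j)))⟩

theorem Disc.relDisc {I : Type v} {F : I → Set X} (h : Disc F) : RelDisc F := by
  intro i x hx
  obtain ⟨V, hV, hij⟩ := h x
  exact ⟨V, hV, fun j hj => hij j i hj ⟨x, mem_of_mem_nhds hV, hx⟩⟩

/-- collectionwise Hausdorff (for index types in one universe) -/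
def CWH (X : Type u) [TopologicalSpace X] : Prop :=
  ∀ (J : Type v) (p : J → X), (∀ x, ∃ V ∈ 𝓝 x, ∀ i j, p i ∈ V → p j ∈ V → i = j) →
    ∃ W : J → Set X, (∀ j, IsOpen (W j) ∧ p j ∈ W j) ∧ ∀ i j, i ≠ j → Disjoint (W i) (W j)

/-- finite families of points -/
theorem CWH.finite_sets [T1Space X] {I : Type v} (h : CWH.{u, max u v} X) {K E : I → Set X}
    (hd : Disc K) (hEK : ∀ i, E i ⊆ K i) (hE : ∀ i, (E i).Finite) : Expands E := by
  obtain ⟨W, hW, hWd⟩ := h (Σ i, E i) (fun p => p.2) (by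
    intro x
    obtain ⟨V, hV, hij⟩ := hd x
    by_cases hne : ∃ i, (V ∩ E i).Nonempty
    · obtain ⟨i, hi⟩ := hne
      refine ⟨V ∩ (E i \ {x})ᶜ, inter_mem hV
        (((hE i).subset sdiff_subset).isClosed.isOpen_compl.mem_nhds (by simp)), ?_⟩
      have key : ∀ p : (Σ i, E i), (p.2 : X) ∈ V ∩ (E i \ {x})ᶜ → p.1 = i ∧ (p.2 : X) = x := by
        rintro ⟨j, e⟩ ⟨heV, he⟩
        have hji : j = i := hij j i ⟨e, heV, hEK j e.2⟩ (hi.mono
          (inter_subset_inter_right _ (hEK i)))
        subst hji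
        refine ⟨rfl, ?_⟩
        by_contra hex
        exact he ⟨e.2, hex⟩
      rintro ⟨j, e⟩ ⟨l, e'⟩ h1 h2
      obtain ⟨a1, a2⟩ := key _ h1
      obtain ⟨b1, b2⟩ := key _ h2
      dsimp only at a1 b1 a2 b2
      subst a1
      subst b1
      congr 1
      exact Subtype.ext (a2.trans b2.symm)
    · refine ⟨V, hV, ?_⟩
      rintro ⟨j, e⟩ - h1 -
      exact absurd ⟨j, e, h1, e.2⟩ hne)
  refine ⟨fun i => ⋃ e : E i, W ⟨i, e⟩, fun i => isOpen_iUnion fun e => (hW _).1, ?_, ?_⟩
  · intro i x hx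
    exact mem_iUnion.2 ⟨⟨x, hx⟩, (hW ⟨i, ⟨x, hx⟩⟩).2⟩
  · intro i j hij
    rw [Set.disjoint_left]
    intro x hx hx'
    obtain ⟨e, he⟩ := mem_iUnion.1 hx
    obtain ⟨e', he'⟩ := mem_iUnion.1 hx'
    exact Set.disjoint_left.1 (hWd ⟨i, e⟩ ⟨j, e'⟩ fun h => hij (congrArg Sigma.fst h)) he he'

/-- discrete families of compact sets -/
theorem compact_expands [T2Space X] [CompletelyNormalSpace X] [LocallyCompactSpace X]
    [LocallyConnectedSpace X] [FirstCountableTopology X] (hX : LocCCC X) {I : Type v}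
    (hH : CWH.{u, max u v} X) {K : I → Set X} (hK : ∀ i, IsCompact (K i)) (hd : Disc K) :
    Expands K := by
  obtain ⟨U, hUo, hfin, hUd⟩ := theorem_R' hX hK hd.relDisc
  obtain ⟨W, hWo, hEW, hWd⟩ := hH.finite_sets hd (E := fun i => K i \ U i)
    (fun i => sdiff_subset) hfin
  have h1 : ∀ i, ∃ G, IsOpen G ∧ K i \ U i ⊆ G ∧ closure G ⊆ W i := fun i =>
    normal_exists_closure_subset (hfin i).isClosed (hWo i) (hEW i)
  choose G hGo hEG hGW using h1
  refine sigma_lemma hd.relDisc (κ := Bool)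
    (fun k i => if k then K i ∩ closure (G i) else K i \ G i) ?_ ?_ ?_ ?_
  · intro k i
    cases k
    · simp only [Bool.false_eq_true, if_false]
      exact sdiff_subset
    · simp only [if_true]
      exact inter_subset_left
  · intro k i x hx hxc
    cases k
    · simp only [Bool.false_eq_true, if_false] at hxc ⊢
      rwa [((hK i).isClosed.sdiff (hGo i)).closure_eq] at hxc
    · simp only [if_true] at hxc ⊢
      rwa [((hK i).isClosed.inter isClosed_closure).closure_eq] at hxc
  · intro i x hx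
    by_cases hxG : x ∈ G i
    · exact mem_iUnion.2 ⟨true, by simpa using ⟨hx, subset_closure hxG⟩⟩
    · exact mem_iUnion.2 ⟨false, by simpa using ⟨hx, hxG⟩⟩
  · intro k
    cases k
    · refine ⟨U, hUo, fun i x hx => ?_, hUd⟩
      simp only [Bool.false_eq_true, if_false] at hx
      by_contra hxU
      exact hx.2 (hEG i ⟨hx.1, hxU⟩)
    · refine ⟨W, hWo, fun i x hx => ?_, hWd⟩
      simp only [if_true] at hx
      exact hGW i hx.2

/-- discrete families of countable unions of compact sets -/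
theorem sigma_expands [T2Space X] [CompletelyNormalSpace X] [LocallyCompactSpace X]
    [LocallyConnectedSpace X] [FirstCountableTopology X] (hX : LocCCC X) {I : Type v}
    (hH : CWH.{u, max u v} X) {F : I → Set X} (C : I → ℕ → Set X)
    (hC : ∀ i n, IsCompact (C i n)) (hF : ∀ i, F i = ⋃ n, C i n) (hd : Disc F) :
    Expands F := by
  have hsub : ∀ n i, C i n ⊆ F i := fun n i => by
    rw [hF i]; exact subset_iUnion (C i) n
  refine sigma_lemma hd.relDisc (fun n i => C i n) hsub ?_ ?_ ?_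
  · intro n i x _ hx
    rwa [(hC i n).isClosed.closure_eq] at hx
  · intro i
    rw [hF i]
  · intro n
    exact compact_expands hX hH (fun i => hC i n) (hd.mono (hsub n))

/-- A locally compact paracompact space is a disjoint union of open subsets which are countable
unions of compact sets. -/
theorem exists_decomp (Y : Type u) [TopologicalSpace Y] [T2Space Y] [LocallyCompactSpace Y]
    [ParacompactSpace Y] : ∃ (J : Type u) (G : J → Set Y) (C : J → ℕ → Set Y),
      (∀ j, IsOpen (G j)) ∧ (∀ i j, i ≠ j → Disjoint (G i) (G j)) ∧ (⋃ j, G j = Set.univ) ∧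
      (∀ j n, IsCompact (C j n)) ∧ ∀ j, G j = ⋃ n, C j n := by
  classical
  choose N hN1 hN2 using fun y : Y => exists_compact_mem_nhds y
  obtain ⟨v, hvo, hvc, hvl, hvN⟩ := precise_refinement (fun y => interior (N y))
    (fun y => isOpen_interior) (by
      rw [eq_univ_iff_forall]
      exact fun y => mem_iUnion.2 ⟨y, mem_interior_iff_mem_nhds.2 (hN2 y)⟩)
  have hfin : ∀ a, {b | (v b ∩ v a).Nonempty}.Finite := fun a =>
    (hvl.finite_nonempty_inter_compact (hN1 a)).subset fun b hb =>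
      hb.mono (inter_subset_inter_right _ ((hvN a).trans interior_subset))
  set r : Y → Y → Prop := fun a b => (v b ∩ v a).Nonempty with hr
  have hrsymm : ∀ a b, r a b → r b a := fun a b h => by
    rw [hr] at h ⊢
    dsimp only at h ⊢
    rwa [inter_comm]
  have hsymm : ∀ a b, Relation.ReflTransGen r a b → Relation.ReflTransGen r b a := by
    intro a b h
    induction h with
    | refl => exact Relation.ReflTransGen.refl
    | tail _ h2 ih => exact Relation.ReflTransGen.head (hrsymm _ _ h2) ih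
  have hcount : ∀ a, {b | Relation.ReflTransGen r a b}.Countable := by
    intro a
    set S : ℕ → Set Y := fun n => (fun T : Set Y => ⋃ c ∈ T, {b | r c b})^[n] {a} with hS
    have hSs : ∀ n, S (n + 1) = ⋃ c ∈ S n, {b | r c b} := fun n =>
      Function.iterate_succ_apply' _ _ _
    have hSc : ∀ n, (S n).Countable := by
      intro n
      induction n with
      | zero => exact countable_singleton a
      | succ n ih =>
        rw [hSs]
        exact ih.biUnion fun c _ => (hfin c).countable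
    refine (countable_iUnion hSc).mono ?_
    intro b hb
    induction hb with
    | refl => exact mem_iUnion.2 ⟨0, rfl⟩
    | tail _ h2 ih =>
      obtain ⟨n, hn⟩ := mem_iUnion.1 ih
      refine mem_iUnion.2 ⟨n + 1, ?_⟩
      rw [hSs]
      exact mem_iUnion₂.2 ⟨_, hn, h2⟩
  let s : Setoid Y := ⟨Relation.ReflTransGen r, fun a => Relation.ReflTransGen.refl,
    fun h => hsymm _ _ h, fun h1 h2 => h1.trans h2⟩
  set G : Quotient s → Set Y := fun q => ⋃ a, ⋃ (_ : (Quotient.mk s a) = q), v a with hG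
  have hGo : ∀ q, IsOpen (G q) := fun q => isOpen_iUnion fun a => isOpen_iUnion fun _ => hvo a
  have hGd : ∀ p q, p ≠ q → Disjoint (G p) (G q) := by
    intro p q hpq
    rw [Set.disjoint_left]
    intro y hy hy'
    simp only [hG, mem_iUnion, exists_prop] at hy hy'
    obtain ⟨a, ha, hya⟩ := hy
    obtain ⟨b, hb, hyb⟩ := hy'
    apply hpq
    rw [← ha, ← hb]
    exact Quotient.sound (s := s) (Relation.ReflTransGen.single ⟨y, hyb, hya⟩)
  have hGu : ⋃ q, G q = Set.univ := by
    rw [eq_univ_iff_forall]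
    intro y
    have : y ∈ ⋃ a, v a := by rw [hvc]; trivial
    obtain ⟨a, ha⟩ := mem_iUnion.1 this
    exact mem_iUnion.2 ⟨Quotient.mk s a, mem_iUnion₂.2 ⟨a, rfl, ha⟩⟩
  have hGc : ∀ q, IsClosed (G q) := by
    intro q
    have : G q = (⋃ p, ⋃ (_ : p ≠ q), G p)ᶜ := by
      ext y
      simp only [mem_compl_iff, mem_iUnion, exists_prop, not_exists, not_and]
      constructor
      · intro hy p hpq hyp
        exact Set.disjoint_left.1 (hGd p q hpq) hyp hy
      · intro h
        have : y ∈ ⋃ q, G q := by rw [hGu]; trivial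
        obtain ⟨p, hp⟩ := mem_iUnion.1 this
        by_cases hpq : p = q
        · rwa [← hpq]
        · exact absurd hp (h p hpq)
    rw [this]
    exact (isOpen_iUnion fun p => isOpen_iUnion fun _ => hGo p).isClosed_compl
  have hC : ∀ q, ∃ C : ℕ → Set Y, (∀ n, IsCompact (C n)) ∧ G q = ⋃ n, C n := by
    intro q
    obtain ⟨a0, rfl⟩ := Quotient.exists_rep q
    have hc : ({b | Quotient.mk s b = Quotient.mk s a0} : Set Y).Countable := by
      refine (hcount a0).mono fun b hb => ?_
      exact hsymm _ _ (Quotient.exact (s := s) hb)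
    obtain ⟨f, hf⟩ := hc.exists_eq_range ⟨a0, rfl⟩
    refine ⟨fun n => N (f n) ∩ G (Quotient.mk s a0), fun n => (hN1 _).inter_right (hGc _), ?_⟩
    ext y
    constructor
    · intro hy
      have hy' := hy
      simp only [hG, mem_iUnion, exists_prop] at hy
      obtain ⟨a, ha, hya⟩ := hy
      have : a ∈ range f := by rw [← hf]; exact ha
      obtain ⟨n, rfl⟩ := this
      exact mem_iUnion.2 ⟨n, interior_subset (hvN _ hya), hy'⟩
    · intro hy
      obtain ⟨n, hn⟩ := mem_iUnion.1 hy
      exact hn.2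
  choose C hC1 hC2 using hC
  exact ⟨Quotient s, G, C, hGo, hGd, hGu, hC1, hC2⟩

/-- discrete families of closed paracompact sets -/
theorem paracompact_expands [T2Space X] [CompletelyNormalSpace X] [LocallyCompactSpace X]
    [LocallyConnectedSpace X] [FirstCountableTopology X] (hX : LocCCC X) {I : Type v}
    (hH : CWH.{u, max u v} X) {F : I → Set X} (hF : ∀ i, IsClosed (F i))
    (hP : ∀ i, ParacompactSpace (F i)) (hd : Disc F) : Expands F := by
  have h0 : ∀ i, LocallyCompactSpace (F i) := fun i =>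
    (hF i).isClosedEmbedding_subtypeVal.locallyCompactSpace
  choose J G C hGo hGd hGu hC1 hC2 using fun i => exists_decomp (F i)
  have hE : Expands (fun p : (Σ i, J i) => Subtype.val '' (G p.1 p.2)) := by
    refine sigma_expands.{u, max u v} hX hH (fun p n => Subtype.val '' (C p.1 p.2 n))
      (fun p n => (hC1 p.1 p.2 n).image continuous_subtype_val) ?_ ?_
    · intro p
      rw [← image_iUnion, ← hC2]
    · intro x
      obtain ⟨V, hV, hij⟩ := hd x
      by_cases hx : ∃ i, x ∈ F i
      · obtain ⟨i, hi⟩ := hx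
        have : (⟨x, hi⟩ : F i) ∈ ⋃ j, G i j := by rw [hGu]; trivial
        obtain ⟨j, hj⟩ := mem_iUnion.1 this
        obtain ⟨O, hO, hOG⟩ := isOpen_induced_iff.1 (hGo i j)
        have hxO : x ∈ O := by
          have : (⟨x, hi⟩ : F i) ∈ Subtype.val ⁻¹' O := by rw [hOG]; exact hj
          exact this
        refine ⟨V ∩ O, inter_mem hV (hO.mem_nhds hxO), ?_⟩
        have key : ∀ p : (Σ i, J i), ((V ∩ O) ∩ Subtype.val '' (G p.1 p.2)).Nonempty →
            p = ⟨i, j⟩ := by
          rintro ⟨i', j'⟩ ⟨_, ⟨hyV, hyO⟩, ⟨y, hyG, rfl⟩⟩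
          dsimp only at hyG
          have hii : i' = i := hij i' i ⟨y, hyV, y.2⟩ ⟨x, mem_of_mem_nhds hV, hi⟩
          subst hii
          have hyG' : y ∈ G i' j := by rw [← hOG]; exact hyO
          have hjj : j' = j := by
            by_contra hne
            exact Set.disjoint_left.1 (hGd i' j' j hne) hyG hyG'
          rw [hjj]
        intro p q hp hq
        rw [key p hp, key q hq]
      · by_cases hne : ∃ i, (V ∩ F i).Nonempty
        · obtain ⟨i, hi⟩ := hne
          refine ⟨V ∩ (F i)ᶜ, inter_mem hV ((hF i).isOpen_compl.mem_nhds fun h => hx ⟨i, h⟩), ?_⟩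
          rintro ⟨i', j'⟩ - ⟨_, ⟨hyV, hyF⟩, ⟨y, hyG, rfl⟩⟩ -
          have hii : i' = i := hij i' i ⟨y, hyV, y.2⟩ hi
          subst hii
          exact absurd y.2 hyF
        · refine ⟨V, hV, ?_⟩
          rintro ⟨i', j'⟩ - ⟨_, hyV, ⟨y, hyG, rfl⟩⟩ -
          exact absurd ⟨i', y, hyV, y.2⟩ hne
  obtain ⟨U, hUo, hFU, hUd⟩ := hE
  refine ⟨fun i => ⋃ j, U ⟨i, j⟩, fun i => isOpen_iUnion fun j => hUo _, ?_, ?_⟩
  · intro i x hx
    have : (⟨x, hx⟩ : F i) ∈ ⋃ j, G i j := by rw [hGu]; trivial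
    obtain ⟨j, hj⟩ := mem_iUnion.1 this
    exact mem_iUnion.2 ⟨j, hFU ⟨i, j⟩ ⟨_, hj, rfl⟩⟩
  · intro i j hij
    rw [Set.disjoint_left]
    intro x hx hx'
    obtain ⟨a, ha⟩ := mem_iUnion.1 hx
    obtain ⟨b, hb⟩ := mem_iUnion.1 hx'
    exact Set.disjoint_left.1 (hUd ⟨i, a⟩ ⟨j, b⟩ fun h => hij (congrArg Sigma.fst h)) ha hb

end TFR
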