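import Pool.Agent.TFR.Sing

/-! The main theorem on relatively discrete families of compact sets. -/

set_option autoImplicit false

namespace TFR

open Set Topology Filter Cardinal TF

universe u v w

variable {X : Type u} [TopologicalSpace X]

theorem Free.of_subtype {I : Type v} {K B : I → Set X} {C : Set I}
    (h : Free (fun i : C => K i) (fun i : C => B i) ∅ univ) : Free K B ∅ C := by
  classical
  obtain ⟨U, hU1, hU2⟩ := h
  refine ⟨fun i => if hi : i ∈ C then U ⟨i, hi⟩ else ∅, ?_, ?_⟩
  · intro i hi _
    simp only [hi, dite_true]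
    obtain ⟨h1, h2, h3, -⟩ := hU1 ⟨i, hi⟩ (mem_univ _) (by simp)
    exact ⟨h1, h2, h3, by simp [MM]⟩
  · intro i hi j hj _ _ hij
    simp only [hi, hj, dite_true]
    exact hU2 ⟨i, hi⟩ (mem_univ _) ⟨j, hj⟩ (mem_univ _) (by simp) (by simp)
      fun h => hij (congrArg Subtype.val h)

theorem free_univ [T2Space X] [CompletelyNormalSpace X] [LocallyCompactSpace X]
    [LocallyConnectedSpace X] [FirstCountableTopology X] (c : Cardinal.{v}) :
    ∀ (I : Type v) (K B : I → Set X), #I = c → Sys K B → Free K B ∅ univ := by
  induction c using WellFoundedLT.induction with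
  | ind c ih =>
    intro I K B hI h
    have hfree : ∀ C : Set I, #C < #I → Free K B ∅ C := fun C hC =>
      Free.of_subtype (ih #C (hI ▸ hC) C _ _ rfl (h.comap Subtype.val Subtype.val_injective))
    rcases le_or_gt (#I) ℵ₀ with hle | hgt
    · have : Countable I := Cardinal.mk_le_aleph0_iff.1 hle
      exact free_countable h countable_univ
    · by_cases hreg : (#I).IsRegular
      · exact reg h hreg hgt hfree
      · refine sing h ⟨hgt.le, fun he => hreg ⟨hgt.le, he.ge⟩⟩ hfree

/-- **Theorem R.** Let `X` be a hereditarily normal, Hausdorff, locally compact, locally connected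
and first countable space and `K i` a relatively discrete family of compact sets, of any
cardinality, such that each `K i` has an open neighbourhood `B i` with the countable chain
condition. Then there are pairwise disjoint open sets `U i` such that each `K i \ U i` is finite. -/
theorem theorem_R [T2Space X] [CompletelyNormalSpace X] [LocallyCompactSpace X]
    [LocallyConnectedSpace X] [FirstCountableTopology X] {I : Type v} {K B : I → Set X}
    (h : Sys K B) : ∃ U : I → Set X, (∀ i, IsOpen (U i)) ∧ (∀ i, U i ⊆ B i) ∧
      (∀ i, (K i \ U i).Finite) ∧ ∀ i j, i ≠ j → Disjoint (U i) (U j) := by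
  obtain ⟨U, h1, h2⟩ := free_univ (#I) I K B rfl h
  exact ⟨U, fun i => (h1 i (mem_univ _) (by simp)).1, fun i => (h1 i (mem_univ _) (by simp)).2.1,
    fun i => (h1 i (mem_univ _) (by simp)).2.2.1,
    fun i j hij => h2 i (mem_univ _) j (mem_univ _) (by simp) (by simp) hij⟩

end TFR
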