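import Pool.Agent.TFR.Fam

/-! Manifolds are locally compact, locally connected, first countable and locally ccc. -/

set_option autoImplicit false

namespace TFR

open Set Topology Filter TF

universe u

variable {X : Type u} [TopologicalSpace X]

/-- A chart gives an open embedding. -/
theorem exists_embedding {n : ℕ} {U : Set X} (hU : IsOpen U)
    (h : Nonempty (U ≃ₜ EuclideanSpace ℝ (Fin n))) :
    ∃ f : EuclideanSpace ℝ (Fin n) → X, IsOpenEmbedding f ∧ range f = U := by
  obtain ⟨e⟩ := h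
  refine ⟨fun y => (e.symm y : X), hU.isOpenEmbedding_subtypeVal.comp e.symm.isOpenEmbedding, ?_⟩
  ext x
  constructor
  · rintro ⟨y, rfl⟩
    exact (e.symm y).2
  · intro hx
    exact ⟨e ⟨x, hx⟩, by simp⟩

/-- the properties of a manifold -/
theorem manifold_props [T2Space X] (hM : ∃ n : ℕ, ∀ x : X, ∃ U : Set X, IsOpen U ∧ x ∈ U ∧
    Nonempty (U ≃ₜ EuclideanSpace ℝ (Fin n))) :
    LocallyCompactSpace X ∧ LocallyConnectedSpace X ∧ FirstCountableTopology X ∧ LocCCC X := by
  obtain ⟨n, hM⟩ := hM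
  have h : ∀ x : X, ∃ f : EuclideanSpace ℝ (Fin n) → X, IsOpenEmbedding f ∧ x ∈ range f := by
    intro x
    obtain ⟨U, hU, hxU, he⟩ := hM x
    obtain ⟨f, hf, hfU⟩ := exists_embedding hU he
    exact ⟨f, hf, hfU ▸ hxU⟩
  choose f hf hx using h
  have hw : WeaklyLocallyCompactSpace X := by
    refine ⟨fun x => ?_⟩
    obtain ⟨y, hy⟩ := hx x
    refine ⟨f x '' Metric.closedBall y 1, (isCompact_closedBall y 1).image (hf x).continuous, ?_⟩
    have h1 := (hf x).isOpenMap.image_mem_nhds (Metric.closedBall_mem_nhds y one_pos)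
    rwa [hy] at h1
  refine ⟨inferInstance, ?_, ?_, ?_⟩
  · rw [locallyConnectedSpace_iff_subsets_isOpen_isConnected]
    intro x W hW
    obtain ⟨y, hy⟩ := hx x
    have h1 : f x ⁻¹' W ∈ 𝓝 y := (hf x).continuous.continuousAt.preimage_mem_nhds (by rwa [hy])
    obtain ⟨V, hV1, hV2, hV3, hV4⟩ := (locallyConnectedSpace_iff_subsets_isOpen_isConnected.1
      inferInstance) y _ h1
    exact ⟨f x '' V, by rintro _ ⟨z, hz, rfl⟩; exact hV1 hz, (hf x).isOpenMap _ hV2,
      ⟨y, hV3, hy⟩, hV4.image _ (hf x).continuous.continuousOn⟩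
  · refine ⟨fun x => ?_⟩
    obtain ⟨y, hy⟩ := hx x
    have h1 := (hf x).map_nhds_eq y
    rw [hy] at h1
    rw [← h1]
    infer_instance
  · intro x
    refine ⟨range (f x), (hf x).isOpen_range.mem_nhds (hx x), fun S hS hd => ?_⟩
    refine Set.PairwiseDisjoint.countable_of_isOpen (s := fun W => f x ⁻¹' W) ?_ ?_ ?_
    · intro W hW W' hW' hne
      exact (hd hW hW' hne).preimage _
    · intro W hW
      exact (hS W hW).1.preimage (hf x).continuous
    · intro W hW
      obtain ⟨-, ⟨w, hw⟩, hWr⟩ := hS W hW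
      obtain ⟨z, rfl⟩ := hWr hw
      exact ⟨z, hw⟩

end TFR
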