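import Pool.Agent.TFR.Man

/-! Relatively discrete families of locally compact paracompact subspaces. -/

set_option autoImplicit false

namespace TFR

open Set Topology Filter TF

universe u v w

variable {X : Type u} [TopologicalSpace X]

/-- A locally compact paracompact space is a disjoint union of open sets, each of which is the union
of a countable locally finite family of compact sets. -/
theorem exists_decomp' (Y : Type u) [TopologicalSpace Y] [T2Space Y] [LocallyCompactSpace Y]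
    [ParacompactSpace Y] : ∃ (J : Type u) (G : J → Set Y) (C : J → ℕ → Set Y),
      (∀ j, IsOpen (G j)) ∧ (∀ i j, i ≠ j → Disjoint (G i) (G j)) ∧ (⋃ j, G j = Set.univ) ∧
      (∀ j n, IsCompact (C j n)) ∧ (∀ j, G j = ⋃ n, C j n) ∧
      ∀ y, ∃ V ∈ 𝓝 y, ∀ j, {n | (C j n ∩ V).Nonempty}.Finite := by
  classical
  choose N hN1 hN2 using fun y : Y => exists_compact_mem_nhds y
  obtain ⟨v, hvo, hvc, hvl, hvN⟩ := precise_refinement (fun y => interior (N y))
    (fun y => isOpen_interior) (by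
      rw [eq_univ_iff_forall]
      exact fun y => mem_iUnion.2 ⟨y, mem_interior_iff_mem_nhds.2 (hN2 y)⟩)
  have hvN' : ∀ a, closure (v a) ⊆ N a := fun a =>
    closure_minimal ((hvN a).trans interior_subset) (hN1 a).isClosed
  have hvK : ∀ a, IsCompact (closure (v a)) := fun a =>
    (hN1 a).of_isClosed_subset isClosed_closure (hvN' a)
  have hfin : ∀ a, {b | (v b ∩ v a).Nonempty}.Finite := fun a =>
    (hvl.finite_nonempty_inter_compact (hN1 a)).subset fun b hb =>
      hb.mono (inter_subset_inter_right _ ((hvN a).trans interior_subset))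
  set r : Y → Y → Prop := fun a b => (v b ∩ v a).Nonempty with hr
  have hrsymm : ∀ a b, r a b → r b a := fun a b h => by
    rw [hr] at h ⊢
    dsimp only at h ⊢
    rwa [inter_comm]
  have hsymm : ∀ a b, Relation.ReflTransGen r a b → Relation.ReflTransGen r b a := by
    intro a b h
    induction h with
    | refl => exact Relation.ReflTransGen.refl
    | tail _ h2 ih => exact Relation.ReflTransGen.head (hrsymm _ _ h2) ih
  have hcount : ∀ a, {b | Relation.ReflTransGen r a b}.Countable := by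
    intro a
    set S : ℕ → Set Y := fun n => (fun T : Set Y => ⋃ c ∈ T, {b | r c b})^[n] {a} with hS
    have hSs : ∀ n, S (n + 1) = ⋃ c ∈ S n, {b | r c b} := fun n =>
      Function.iterate_succ_apply' _ _ _
    have hSc : ∀ n, (S n).Countable := by
      intro n
      induction n with
      | zero => exact countable_singleton a
      | succ n ih =>
        rw [hSs]
        exact ih.biUnion fun c _ => (hfin c).countable
    refine (countable_iUnion hSc).mono ?_
    intro b hb
    induction hb with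
    | refl => exact mem_iUnion.2 ⟨0, rfl⟩
    | tail _ h2 ih =>
      obtain ⟨n, hn⟩ := mem_iUnion.1 ih
      refine mem_iUnion.2 ⟨n + 1, ?_⟩
      rw [hSs]
      exact mem_iUnion₂.2 ⟨_, hn, h2⟩
  let s : Setoid Y := ⟨Relation.ReflTransGen r, fun a => Relation.ReflTransGen.refl,
    fun h => hsymm _ _ h, fun h1 h2 => h1.trans h2⟩
  set G : Quotient s → Set Y := fun q => ⋃ a, ⋃ (_ : (Quotient.mk s a) = q), v a with hG
  have hGo : ∀ q, IsOpen (G q) := fun q => isOpen_iUnion fun a => isOpen_iUnion fun _ => hvo a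
  have hGd : ∀ p q, p ≠ q → Disjoint (G p) (G q) := by
    intro p q hpq
    rw [Set.disjoint_left]
    intro y hy hy'
    simp only [hG, mem_iUnion, exists_prop] at hy hy'
    obtain ⟨a, ha, hya⟩ := hy
    obtain ⟨b, hb, hyb⟩ := hy'
    apply hpq
    rw [← ha, ← hb]
    exact Quotient.sound (s := s) (Relation.ReflTransGen.single ⟨y, hyb, hya⟩)
  have hGu : ⋃ q, G q = Set.univ := by
    rw [eq_univ_iff_forall]
    intro y
    have : y ∈ ⋃ a, v a := by rw [hvc]; trivial
    obtain ⟨a, ha⟩ := mem_iUnion.1 this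
    exact mem_iUnion.2 ⟨Quotient.mk s a, mem_iUnion₂.2 ⟨a, rfl, ha⟩⟩
  have hGc : ∀ q, IsClosed (G q) := by
    intro q
    have : G q = (⋃ p, ⋃ (_ : p ≠ q), G p)ᶜ := by
      ext y
      simp only [mem_compl_iff, mem_iUnion, exists_prop, not_exists, not_and]
      constructor
      · intro hy p hpq hyp
        exact Set.disjoint_left.1 (hGd p q hpq) hyp hy
      · intro h
        have : y ∈ ⋃ q, G q := by rw [hGu]; trivial
        obtain ⟨p, hp⟩ := mem_iUnion.1 this
        by_cases hpq : p = q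
        · rwa [← hpq]
        · exact absurd hp (h p hpq)
    rw [this]
    exact (isOpen_iUnion fun p => isOpen_iUnion fun _ => hGo p).isClosed_compl
  have hvG : ∀ a, v a ⊆ G (Quotient.mk s a) := fun a y hy => mem_iUnion₂.2 ⟨a, rfl, hy⟩
  have hC : ∀ q, ∃ C : ℕ → Set Y, (∀ n, IsCompact (C n)) ∧ G q = ⋃ n, C n ∧
      ∀ V : Set Y, {a | (closure (v a) ∩ V).Nonempty}.Finite → {n | (C n ∩ V).Nonempty}.Finite := by
    intro q
    obtain ⟨a0, rfl⟩ := Quotient.exists_rep q
    have hc : Countable {b // Quotient.mk s b = Quotient.mk s a0} := by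
      have : ({b | Quotient.mk s b = Quotient.mk s a0} : Set Y).Countable :=
        (hcount a0).mono fun b hb => hsymm _ _ (Quotient.exact (s := s) hb)
      exact this.to_subtype
    obtain ⟨f, hf⟩ := Countable.exists_injective_nat {b // Quotient.mk s b = Quotient.mk s a0}
    refine ⟨fun n => ⋃ b, ⋃ (_ : f b = n), closure (v (b : Y)), ?_, ?_, ?_⟩
    · intro n
      by_cases hn : ∃ b, f b = n
      · obtain ⟨b, rfl⟩ := hn
        have : (⋃ b', ⋃ (_ : f b' = f b), closure (v (b' : Y))) = closure (v (b : Y)) := by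
          ext y
          simp only [mem_iUnion, exists_prop]
          constructor
          · rintro ⟨b', hb', hy⟩
            rwa [← hf hb']
          · intro hy
            exact ⟨b, rfl, hy⟩
        dsimp only
        rw [this]
        exact hvK _
      · have : (⋃ b, ⋃ (_ : f b = n), closure (v (b : Y))) = ∅ := by
          ext y
          simp only [mem_iUnion, exists_prop, mem_empty_iff_false, iff_false, not_exists, not_and]
          intro b hb
          exact absurd ⟨b, hb⟩ hn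
        dsimp only
        rw [this]
        exact isCompact_empty
    · ext y
      simp only [mem_iUnion, exists_prop]
      constructor
      · intro hy
        simp only [hG, mem_iUnion, exists_prop] at hy
        obtain ⟨a, ha, hya⟩ := hy
        exact ⟨_, ⟨a, ha⟩, rfl, subset_closure hya⟩
      · rintro ⟨n, ⟨b, hb⟩, -, hy⟩
        have h1 := closure_minimal (hvG b) (hGc _) hy
        rwa [hb] at h1
    · intro V hV
      have h1 : ({b : {b // Quotient.mk s b = Quotient.mk s a0} |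
          (closure (v (b : Y)) ∩ V).Nonempty}).Finite :=
        Set.Finite.preimage (f := fun b : {b // Quotient.mk s b = Quotient.mk s a0} => (b : Y))
          Subtype.val_injective.injOn hV
      refine (h1.image f).subset ?_
      rintro n ⟨y, hy, hyV⟩
      simp only [mem_iUnion, exists_prop] at hy
      obtain ⟨b, hb, hy⟩ := hy
      exact ⟨b, ⟨y, hy, hyV⟩, hb⟩
  choose C hC1 hC2 hC3 using hC
  refine ⟨Quotient s, G, C, hGo, hGd, hGu, hC1, hC2, fun y => ?_⟩
  obtain ⟨V, hV, hVf⟩ := hvl.closure y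
  exact ⟨V, hV, fun q => hC3 q V hVf⟩

/-- **Separation modulo discrete sets.** -/
theorem mod_discrete [T2Space X] [CompletelyNormalSpace X] [LocallyCompactSpace X]
    [LocallyConnectedSpace X] [FirstCountableTopology X] (hX : LocCCC X) {I : Type v}
    {F : I → Set X} (hrel : RelDisc F) (hL : ∀ i, LocallyCompactSpace (F i))
    (hP : ∀ i, ParacompactSpace (F i)) :
    ∃ U : I → Set X, (∀ i, IsOpen (U i)) ∧
      (∀ i, ∀ x ∈ F i, ∃ V ∈ 𝓝 x, (V ∩ (F i \ U i)).Finite) ∧
      ∀ i j, i ≠ j → Disjoint (U i) (U j) := by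
  choose J G C hGo hGd hGu hC1 hC2 hC3 using fun i => exists_decomp' (F i)
  set F' : (Σ i, J i) → Set X := fun p => Subtype.val '' (G p.1 p.2) with hF'
  have hF'F : ∀ p, F' p ⊆ F p.1 := by
    rintro p _ ⟨y, -, rfl⟩
    exact y.2
  have hrel' : RelDisc F' := by
    rintro ⟨i, j⟩ _ ⟨y, hy, rfl⟩
    dsimp only at hy
    obtain ⟨V, hV, hij⟩ := hrel i y y.2
    obtain ⟨O, hO, hOG⟩ := isOpen_induced_iff.1 (hGo i j)
    have hyO : (y : X) ∈ O := by
      have : y ∈ Subtype.val ⁻¹' O := by rw [hOG]; exact hy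
      exact this
    refine ⟨V ∩ O, inter_mem hV (hO.mem_nhds hyO), ?_⟩
    rintro ⟨i', j'⟩ ⟨_, ⟨hzV, hzO⟩, ⟨z, hz, rfl⟩⟩
    dsimp only at hz
    have hii : i' = i := hij i' ⟨z, hzV, z.2⟩
    subst hii
    have hz' : z ∈ G i' j := by rw [← hOG]; exact hzO
    have hjj : j' = j := by
      by_contra hne
      exact Set.disjoint_left.1 (hGd i' j' j hne) hz hz'
    rw [hjj]
  set C' : (Σ i, J i) → ℕ → Set X := fun p n => Subtype.val '' (C p.1 p.2 n) with hC'
  have hC'c : ∀ p n, IsCompact (C' p n) := fun p n =>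
    (hC1 p.1 p.2 n).image continuous_subtype_val
  have hC'F : ∀ p, F' p = ⋃ n, C' p n := fun p => by
    simp only [hF', hC']
    rw [← image_iUnion, ← hC2]
  have hC'sub : ∀ p n, C' p n ⊆ F' p := fun p n => by
    rw [hC'F p]; exact subset_iUnion (C' p) n
  have h1 : ∀ n, ∃ U : (Σ i, J i) → Set X, (∀ p, IsOpen (U p)) ∧ (∀ p, (C' p n \ U p).Finite) ∧
      ∀ p q, p ≠ q → Disjoint (U p) (U q) := fun n =>
    theorem_R' hX (fun p => hC'c p n) (hrel'.mono fun p => hC'sub p n)
  choose U hUo hUf hUd using h1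
  set E : (Σ i, J i) → Set X := fun p => ⋃ n, C' p n \ U n p with hE
  have hEx : Expands fun p => F' p \ E p := by
    refine sigma_lemma (hrel'.mono fun p => sdiff_subset) (fun n p => C' p n \ E p) ?_ ?_ ?_ ?_
    · intro n p
      exact sdiff_subset_sdiff_left (hC'sub p n)
    · rintro n p x ⟨-, hxE⟩ hxc
      refine ⟨?_, hxE⟩
      have := closure_mono (sdiff_subset (s := C' p n) (t := E p)) hxc
      rwa [(hC'c p n).isClosed.closure_eq] at this
    · rintro p x ⟨hx, hxE⟩
      rw [hC'F p] at hx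
      obtain ⟨n, hn⟩ := mem_iUnion.1 hx
      exact mem_iUnion.2 ⟨n, hn, hxE⟩
    · intro n
      refine ⟨U n, hUo n, ?_, hUd n⟩
      rintro p x ⟨hx, hxE⟩
      by_contra hxU
      exact hxE (mem_iUnion.2 ⟨n, hx, hxU⟩)
  obtain ⟨W, hWo, hFW, hWd⟩ := hEx
  refine ⟨fun i => ⋃ j, W ⟨i, j⟩, fun i => isOpen_iUnion fun j => hWo _, ?_, ?_⟩
  · intro i x hx
    have hxu : (⟨x, hx⟩ : F i) ∈ ⋃ j, G i j := by rw [hGu]; trivial
    obtain ⟨j, hj⟩ := mem_iUnion.1 hxu
    obtain ⟨O, hO, hOG⟩ := isOpen_induced_iff.1 (hGo i j)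
    have hxO : x ∈ O := by
      have : (⟨x, hx⟩ : F i) ∈ Subtype.val ⁻¹' O := by rw [hOG]; exact hj
      exact this
    obtain ⟨V, hV, hVf⟩ := hC3 i ⟨x, hx⟩
    obtain ⟨V', hV', hVV'⟩ := mem_nhds_induced _ _ _ |>.1 hV
    refine ⟨V' ∩ O, inter_mem hV' (hO.mem_nhds hxO), ?_⟩
    have h2 : (⋃ n ∈ {n | (C i j n ∩ V).Nonempty}, C' ⟨i, j⟩ n \ U n ⟨i, j⟩).Finite :=
      (hVf j).biUnion fun n _ => hUf n ⟨i, j⟩
    refine h2.subset ?_
    rintro y ⟨⟨hyV, hyO⟩, hyF, hyW⟩
    have hyG : (⟨y, hyF⟩ : F i) ∈ G i j := by rw [← hOG]; exact hyO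
    have hyF' : y ∈ F' ⟨i, j⟩ := ⟨⟨y, hyF⟩, hyG, rfl⟩
    have hyE : y ∈ E ⟨i, j⟩ := by
      by_contra hyE
      exact hyW (mem_iUnion.2 ⟨j, hFW ⟨i, j⟩ ⟨hyF', hyE⟩⟩)
    obtain ⟨n, hn1, hn2⟩ := mem_iUnion.1 hyE
    refine mem_iUnion₂.2 ⟨n, ?_, hn1, hn2⟩
    obtain ⟨z, hz, hzy⟩ := hn1
    have hzz : z = ⟨y, hyF⟩ := Subtype.ext hzy
    subst hzz
    exact ⟨_, hz, hVV' hyV⟩
  · intro i j hij
    rw [Set.disjoint_left]
    intro x hx hx'
    obtain ⟨a, ha⟩ := mem_iUnion.1 hx
    obtain ⟨b, hb⟩ := mem_iUnion.1 hx'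
    exact Set.disjoint_left.1 (hWd ⟨i, a⟩ ⟨j, b⟩ fun h => hij (congrArg Sigma.fst h)) ha hb

end TFR
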