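import Pool.Agent.TFR.Reg

/-! Pure index sets. -/

set_option autoImplicit false

namespace TFR

open Set Topology Filter Cardinal TF
open Order (succ)

universe u v w

theorem exists_cover {I O : Type v} [Nonempty I] (C : Set I) (hC : #C ≤ #O) :
    ∃ e : O → I, C ⊆ range e := by
  classical
  obtain ⟨f⟩ : Nonempty (C ↪ O) := hC
  refine ⟨fun o => if h : ∃ c, f c = o then (h.choose : I) else Classical.arbitrary I, ?_⟩
  intro c hc
  refine ⟨f ⟨c, hc⟩, ?_⟩
  have h : ∃ c', f c' = f ⟨c, hc⟩ := ⟨_, rfl⟩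
  dsimp only
  rw [dif_pos h]
  exact congrArg Subtype.val (f.injective h.choose_spec)

variable {X : Type u} [TopologicalSpace X] {I : Type v} {K B : I → Set X}

theorem pure [T2Space X] [CompletelyNormalSpace X] (h : Sys K B) {c : Cardinal.{v}}
    (hc : ℵ₀ ≤ c) (hfree : ∀ C : Set I, #C ≤ succ c → Free K B ∅ C) (A0 : Set I)
    (hA0 : #A0 ≤ c) : ∃ A, A0 ⊆ A ∧ #A ≤ c ∧ ∀ C : Set I, #C ≤ succ c → Free K B A C := by
  classical
  rcases isEmpty_or_nonempty I with hI | hI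
  · refine ⟨A0, subset_rfl, hA0, fun C _ => ⟨fun _ => ∅, fun i => (hI.false i).elim,
      fun i => (hI.false i).elim⟩⟩
  by_contra hcon
  push Not at hcon
  obtain ⟨O, _, _, hO, hini⟩ := exists_index (succ c)
  have hreg : (succ c).IsRegular := Cardinal.isRegular_succ hc
  have hlt : c < succ c := Order.lt_succ c
  have he : ∀ A : Set I, ∃ e : O → I, A0 ⊆ A → #A ≤ c → ∃ C : Set I, ¬ Free K B A C ∧
      C ⊆ range e := by
    intro A
    by_cases hA : A0 ⊆ A ∧ #A ≤ c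
    · obtain ⟨C, hC, hC'⟩ := hcon A hA.1 hA.2
      obtain ⟨e, he⟩ := exists_cover (O := O) C (by rw [hO]; exact hC)
      exact ⟨e, fun _ _ => ⟨C, hC', he⟩⟩
    · exact ⟨fun _ => Classical.arbitrary I, fun h1 h2 => absurd ⟨h1, h2⟩ hA⟩
  choose e he using he
  obtain ⟨A, hA⟩ := exists_rec (O := O) (α := Set I) fun o A =>
    A0 ∪ ⋃ b : Iio o, e (A b) '' Iio o
  have hA0A : ∀ o, A0 ⊆ A o := fun o => by rw [hA o]; exact subset_union_left
  have hmem : ∀ {o a t : O}, a < o → t < o → e (A a) t ∈ A o := by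
    intro o a t ha ht
    rw [hA o]
    exact Or.inr (mem_iUnion.2 ⟨⟨a, ha⟩, mem_image_of_mem _ ht⟩)
  have hinv : ∀ {o : O} {i : I}, i ∈ A o → i ∈ A0 ∨ ∃ a < o, ∃ t < o, e (A a) t = i := by
    intro o i hi
    rw [hA o] at hi
    rcases hi with hi | hi
    · exact Or.inl hi
    · obtain ⟨⟨a, ha⟩, t, ht, hti⟩ := mem_iUnion.1 hi
      exact Or.inr ⟨a, ha, t, ht, hti⟩
  have hmono : ∀ {a b : O}, a ≤ b → A a ⊆ A b := by
    intro a b hab i hi
    rcases hinv hi with hi | ⟨a', ha', t, ht, rfl⟩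
    · exact hA0A b hi
    · exact hmem (ha'.trans_le hab) (ht.trans_le hab)
  have hcard : ∀ o, #(A o) ≤ c := by
    intro o
    rw [← Order.lt_succ_iff, hA o]
    refine (Cardinal.mk_union_le _ _).trans_lt (Cardinal.add_lt_of_lt hreg.aleph0_le
      (Order.lt_succ_iff.2 hA0) ?_)
    refine (Cardinal.card_iUnion_lt_iff_forall_of_isRegular hreg (hini o)).2 fun b => ?_
    exact Cardinal.mk_image_le.trans_lt (hini o)
  have hup : ∀ S : Set O, #S ≤ c → ∃ a, ∀ s ∈ S, s < a := fun S hS =>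
    bdd hreg hO hini S (Order.lt_succ_iff.2 hS)
  set D : Set I := ⋃ o, A o with hD
  have hDfree : Free K B ∅ D := by
    apply hfree
    have h1 : #D ≤ #O * ⨆ o, #(A o) := Cardinal.mk_iUnion_le _
    refine h1.trans ?_
    rw [hO]
    calc succ c * ⨆ o, #(A o) ≤ succ c * succ c :=
          mul_le_mul' le_rfl (ciSup_le' fun o => (hcard o).trans hlt.le)
      _ = succ c := Cardinal.mul_eq_self hreg.aleph0_le
  obtain ⟨U, hU⟩ := hDfree
  have hst : ∀ i, ∃ o, i ∈ D → i ∈ A o := by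
    intro i
    by_cases hi : i ∈ D
    · obtain ⟨o, ho⟩ := mem_iUnion.1 hi
      exact ⟨o, fun _ => ho⟩
    · obtain ⟨a, -⟩ := hup ∅ (by simp)
      exact ⟨a, fun h => absurd h hi⟩
  choose st hst using hst
  have hg : ∀ a, ∃ b, a < b ∧ ∀ i ∈ D, ∀ j ∈ A a, (U i ∩ B j).Nonempty → i ∈ A b := by
    intro a
    have h1 : #(⋃ j : A a, {i | i ∈ D ∧ (U i ∩ B j).Nonempty} : Set I) < succ c :=
      (Cardinal.card_iUnion_lt_iff_forall_of_isRegular hreg (Order.lt_succ_iff.2 (hcard a))).2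
        fun j => (hU.hits h j).le_aleph0.trans_lt (hc.trans_lt hlt)
    obtain ⟨b, hb⟩ := bdd hreg hO hini
      ({a} ∪ st '' (⋃ j : A a, {i | i ∈ D ∧ (U i ∩ B j).Nonempty})) (by
        refine (Cardinal.mk_union_le _ _).trans_lt (Cardinal.add_lt_of_lt hreg.aleph0_le ?_
          (Cardinal.mk_image_le.trans_lt h1))
        rw [Cardinal.mk_singleton]
        exact Cardinal.one_lt_aleph0.trans (hc.trans_lt hlt))
    refine ⟨b, hb a (Or.inl rfl), fun i hi j hj hij => ?_⟩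
    exact hmono (hb (st i) (Or.inr ⟨i, mem_iUnion.2 ⟨⟨j, hj⟩, hi, hij⟩, rfl⟩)).le (hst i hi)
  choose g hg1 hg2 using hg
  obtain ⟨o0, -⟩ := hup ∅ (by simp)
  obtain ⟨o, hoo, ho⟩ := exists_limit hreg (hc.trans_lt hlt) hO hini g o0
  have hstage : ∀ j ∈ A o, ∃ a < o, j ∈ A a := by
    intro j hj
    rcases hinv hj with hj | ⟨a, ha, t, ht, rfl⟩
    · exact ⟨o0, hoo, hA0A o0 hj⟩
    · obtain ⟨b, hb, hbo⟩ := ho (max a t) (max_lt ha ht)
      exact ⟨g b, hbo, hmem (((le_max_left a t).trans hb).trans_lt (hg1 b))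
        (((le_max_right a t).trans hb).trans_lt (hg1 b))⟩
  have hW : Wit K B (A o) D U := hU.of_hitClosed fun i hi j hj hij => by
    obtain ⟨a, ha, hja⟩ := hstage j hj
    obtain ⟨b, hb, hbo⟩ := ho a ha
    exact hmono hbo.le (hg2 b i hi j (hmono hb hja) hij)
  obtain ⟨C, hC, hCe⟩ := he (A o) (hA0A o) (hcard o)
  refine hC ⟨U, hW.mono ?_⟩
  intro i hi
  obtain ⟨t, rfl⟩ := hCe hi
  obtain ⟨b, hb⟩ := bdd hreg hO hini ({o, t} : Set O) ((Set.toFinite _).lt_aleph0.trans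
    (hc.trans_lt hlt))
  exact mem_iUnion.2 ⟨b, hmem (hb o (by simp)) (hb t (by simp))⟩

end TFR
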