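import Pool.Agent.TFR.Base

/-! The regular step. -/

set_option autoImplicit false

namespace TFR

open Set Topology Filter Cardinal TF

universe u v w

section order

variable {O : Type v} [LinearOrder O] {κ : Cardinal.{v}}

theorem mk_Iic_lt (hκ : ℵ₀ ≤ κ) (hini : ∀ a : O, #(Iio a) < κ) (a : O) : #(Iic a) < κ := by
  have : (Iic a : Set O) = Iio a ∪ {a} := by
    ext b
    simp [le_iff_lt_or_eq]
  rw [this]
  refine (Cardinal.mk_union_le _ _).trans_lt (Cardinal.add_lt_of_lt hκ (hini a) ?_)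
  rw [Cardinal.mk_singleton]
  exact (Cardinal.one_lt_aleph0).trans_le hκ

theorem bdd (hκ : κ.IsRegular) (hO : #O = κ) (hini : ∀ a : O, #(Iio a) < κ) (S : Set O)
    (hS : #S < κ) : ∃ a, ∀ s ∈ S, s < a := by
  by_contra hcon
  push Not at hcon
  have h1 : (⋃ s : S, Iic (s : O)) = Set.univ := by
    rw [eq_univ_iff_forall]
    intro a
    obtain ⟨s, hs, hs'⟩ := hcon a
    exact mem_iUnion.2 ⟨⟨s, hs⟩, hs'⟩
  have h2 : #(⋃ s : S, Iic (s : O)) < κ :=
    (Cardinal.card_iUnion_lt_iff_forall_of_isRegular hκ hS).2 fun s =>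
      mk_Iic_lt hκ.aleph0_le hini _
  rw [h1, Cardinal.mk_univ, hO] at h2
  exact lt_irrefl _ h2

theorem exists_least [WellFoundedLT O] (P : O → Prop) (h : ∃ a, P a) :
    ∃ a, P a ∧ ∀ b, P b → a ≤ b := by
  refine ⟨WellFounded.min wellFounded_lt {a | P a} h, WellFounded.min_mem _ {a | P a} h, ?_⟩
  intro b hb
  exact not_lt.1 (WellFounded.not_lt_min wellFounded_lt {a | P a} hb)

theorem exists_limit [WellFoundedLT O] (hκ : κ.IsRegular) (hunc : ℵ₀ < κ) (hO : #O = κ)
    (hini : ∀ a : O, #(Iio a) < κ) (g : O → O) (a : O) :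
    ∃ c, a < c ∧ ∀ b < c, ∃ b', b ≤ b' ∧ g b' < c := by
  obtain ⟨d, hd⟩ := bdd hκ hO hini (range fun n : ℕ => g^[n] a)
    ((countable_range fun n : ℕ => g^[n] a).le_aleph0.trans_lt hunc)
  obtain ⟨c, hc, hmin⟩ := exists_least (fun c : O => ∀ n : ℕ, g^[n] a < c)
    ⟨d, fun n => hd _ ⟨n, rfl⟩⟩
  refine ⟨c, hc 0, fun b hb => ?_⟩
  by_contra hcon
  push Not at hcon
  have : ∀ n : ℕ, g^[n] a < b := by
    intro n
    by_contra h
    have h1 := hcon _ (not_lt.1 h)
    have h2 := hc (n + 1)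
    rw [Function.iterate_succ_apply'] at h2
    exact absurd h2 (not_lt.2 h1)
  exact absurd (hmin b this) (not_le.2 hb)

theorem exists_index (κ : Cardinal.{v}) : ∃ (O : Type v) (_ : LinearOrder O), WellFoundedLT O ∧
    #O = κ ∧ ∀ a : O, #(Iio a) < κ :=
  ⟨κ.ord.ToType, inferInstance, inferInstance, Cardinal.mk_ord_toType κ,
    fun a => by
      have := Cardinal.mk_Iio_lt a (by simp)
      simpa using this⟩

/-- Recursion along a well-order. -/
theorem exists_rec [WellFoundedLT O] {α : Type w} (G : (c : O) → (Iio c → α) → α) :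
    ∃ A : O → α, ∀ c, A c = G c fun b => A b := by
  refine ⟨(wellFounded_lt (α := O)).fix fun c ih => G c fun b => ih b.1 b.2, fun c => ?_⟩
  rw [WellFounded.fix_eq]

end order

variable {X : Type u} [TopologicalSpace X] {I : Type v} {K B : I → Set X}

theorem reg [T2Space X] [CompletelyNormalSpace X] [LocallyCompactSpace X]
    [LocallyConnectedSpace X] [FirstCountableTopology X] (h : Sys K B)
    (hκ : (#I).IsRegular) (hunc : ℵ₀ < #I) (hfree : ∀ C : Set I, #C < #I → Free K B ∅ C) :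
    Free K B ∅ univ := by
  classical
  obtain ⟨O, _, _, hO, hini⟩ := exists_index (#I)
  obtain ⟨x⟩ : Nonempty (O ≃ I) := Cardinal.eq.1 hO
  obtain ⟨A, hA⟩ := exists_rec (O := O) (α := Set I) fun c A =>
    ⋃ b : Iio c, (A b ∪ Phi K B (A b) ∪ {x b})
  have hstep : ∀ {b c : O}, b < c → A b ∪ Phi K B (A b) ∪ {x b} ⊆ A c := by
    intro b c hbc
    rw [hA c]
    exact subset_iUnion (fun b : Iio c => A b ∪ Phi K B (A b) ∪ {x b}) ⟨b, hbc⟩
  have hmono : ∀ {b c : O}, b ≤ c → A b ⊆ A c := by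
    intro b c hbc
    rcases eq_or_lt_of_le hbc with rfl | hbc
    · exact subset_rfl
    · exact (subset_union_left.trans subset_union_left).trans (hstep hbc)
  have hcard : ∀ c, #(A c) < #I := by
    intro c
    induction c using WellFoundedLT.induction with
    | ind c ih =>
      rw [hA c]
      refine (Cardinal.card_iUnion_lt_iff_forall_of_isRegular hκ (hini c)).2 fun b => ?_
      refine (Cardinal.mk_union_le _ _).trans_lt (Cardinal.add_lt_of_lt hκ.aleph0_le
        ((Cardinal.mk_union_le _ _).trans_lt (Cardinal.add_lt_of_lt hκ.aleph0_le (ih b b.2) ?_)) ?_)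
      · exact (mk_Phi_le h (A b) (le_max_right _ _) (le_max_left _ _)).trans_lt
          (max_lt (ih b b.2) hunc)
      · rw [Cardinal.mk_singleton]
        exact Cardinal.one_lt_aleph0.trans hunc
  have hlim : ∀ c, (∀ b < c, ∃ b', b < b' ∧ b' < c) → ∀ i ∈ A c, ∃ b < c, i ∈ A b := by
    intro c hc i hi
    rw [hA c] at hi
    obtain ⟨b, hb⟩ := mem_iUnion.1 hi
    obtain ⟨b', h1, h2⟩ := hc b b.2
    exact ⟨b', h2, hstep h1 hb⟩
  have hsing : ∀ b : O, ∃ c, b < c := by
    intro b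
    obtain ⟨c, hc⟩ := bdd hκ hO hini {b} (by
      rw [Cardinal.mk_singleton]; exact Cardinal.one_lt_aleph0.trans hunc)
    exact ⟨c, hc b rfl⟩
  have hcov : ∀ i, ∃ c, i ∈ A c := by
    intro i
    obtain ⟨c, hc⟩ := hsing (x.symm i)
    exact ⟨c, hstep hc (Or.inr (by simp))⟩
  -- bad stages
  set T : Set O := {c | ∃ i, i ∈ Phi K B (A c) ∧ i ∉ A c} with hT
  have hf : ∀ t : T, ∃ i, i ∈ Phi K B (A t) ∧ i ∉ A t := fun t => t.2
  choose f hf1 hf2 using hf
  have hlt : ∀ s t : T, (s : O) < t → f s ≠ f t := by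
    intro s t hst he
    refine hf2 t ?_
    rw [← he]
    exact hstep hst (Or.inl (Or.inr (hf1 s)))
  have hfi : Function.Injective f := by
    intro s t hst
    rcases lt_trichotomy (s : O) t with h1 | h1 | h1
    · exact absurd hst (hlt s t h1)
    · exact Subtype.ext h1
    · exact absurd hst.symm (hlt t s h1)
  obtain ⟨b, hbA, hbc⟩ := sax h (fun t : T => A t) f hfi hf1
  set P : O → Prop := fun c => (∀ a < c, ∃ a', a < a' ∧ a' < c) ∧
    ∀ a < c, ∀ t : T, b t ∈ A a → (t : O) < c with hP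
  have hPT : ∀ c, P c → c ∉ T := by
    intro c hc hcT
    obtain ⟨a, hac, ha⟩ := hlim c hc.1 _ (hbA ⟨c, hcT⟩)
    exact lt_irrefl _ (hc.2 a hac ⟨c, hcT⟩ ha)
  have hPlim : ∀ c, (∀ a < c, ∃ s, a < s ∧ s < c ∧ P s) → P c := by
    intro c hc
    refine ⟨fun a ha => ?_, fun a ha t hta => ?_⟩
    · obtain ⟨s, h1, h2, -⟩ := hc a ha
      exact ⟨s, h1, h2⟩
    · obtain ⟨s, h1, h2, h3⟩ := hc a ha
      exact (h3.2 a h1 t hta).trans h2
  have hg : ∀ a, ∃ c, a < c ∧ ∀ t : T, b t ∈ A a → (t : O) < c := by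
    intro a
    have h1 : #({a} ∪ Subtype.val '' {t : T | b t ∈ A a} : Set O) < #I := by
      refine (Cardinal.mk_union_le _ _).trans_lt (Cardinal.add_lt_of_lt hκ.aleph0_le ?_ ?_)
      · rw [Cardinal.mk_singleton]
        exact Cardinal.one_lt_aleph0.trans hunc
      · refine Cardinal.mk_image_le.trans_lt ?_
        have : {t : T | b t ∈ A a} = ⋃ i : A a, {t : T | b t = i} := by
          ext t
          simp
        rw [this]
        refine (Cardinal.card_iUnion_lt_iff_forall_of_isRegular hκ (hcard a)).2 fun i => ?_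
        exact (hbc i).le_aleph0.trans_lt hunc
    obtain ⟨c, hc⟩ := bdd hκ hO hini _ h1
    exact ⟨c, hc a (Or.inl rfl), fun t ht => hc t (Or.inr ⟨t, ht, rfl⟩)⟩
  choose g hg1 hg2 using hg
  have hPunb : ∀ a, ∃ c, a < c ∧ P c := by
    intro a
    obtain ⟨c, hac, hc⟩ := exists_limit hκ hunc hO hini g a
    refine ⟨c, hac, fun b hb => ?_, fun b hb t ht => ?_⟩
    · obtain ⟨b', h1, h2⟩ := hc b hb
      exact ⟨g b', h1.trans_lt (hg1 b'), h2⟩
    · obtain ⟨b', h1, h2⟩ := hc b hb
      exact (hg2 b' t (hmono h1 ht)).trans h2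
  -- the two stages of an index
  have hδ : ∀ i, ∃ d, (P d ∧ i ∈ A d) ∧ ∀ c, P c ∧ i ∈ A c → d ≤ c := by
    intro i
    apply exists_least
    obtain ⟨a, ha⟩ := hcov i
    obtain ⟨c, hac, hc⟩ := hPunb a
    exact ⟨c, hc, hmono hac.le ha⟩
  choose d hd hdmin using hδ
  have hs : ∀ i, ∃ s, P s ∧ i ∉ A s ∧ ∀ c, P c → i ∉ A c → c ≤ s := by
    intro i
    obtain ⟨s, hs, hsmin⟩ := exists_least (fun s : O => ∀ c, P c → i ∉ A c → c ≤ s) ⟨d i, by
      intro c _ hic
      by_contra hcd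
      exact hic (hmono (not_le.1 hcd).le (hd i).2)⟩
    by_cases hmem : P s ∧ i ∉ A s
    · exact ⟨s, hmem.1, hmem.2, hs⟩
    · have key : ∀ a < s, ∃ c, a < c ∧ c < s ∧ P c ∧ i ∉ A c := by
        intro a ha
        by_contra hcon
        push Not at hcon
        refine absurd (hsmin a fun c hc hic => ?_) (not_le.2 ha)
        by_contra hca
        have h1 : c < s := by
          refine lt_of_le_of_ne (hs c hc hic) ?_
          rintro rfl
          exact hmem ⟨hc, hic⟩
        exact hic (hcon c (not_le.1 hca) h1 hc)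
      have hPs : P s := hPlim s fun a ha => by
        obtain ⟨c, h1, h2, h3, -⟩ := key a ha
        exact ⟨c, h1, h2, h3⟩
      refine ⟨s, hPs, fun his => ?_, hs⟩
      obtain ⟨a, ha, hia⟩ := hlim s hPs.1 i his
      obtain ⟨c, h1, -, -, h4⟩ := key a ha
      exact h4 (hmono h1.le hia)
  choose s hsP hsi hsmax using hs
  have hU : ∀ c, Free K B ∅ (A c) := fun c => hfree _ (hcard c)
  choose U hU using hU
  refine ⟨fun i => U (d i) i \ closure (MM B (A (s i))), ?_, ?_⟩
  · intro i _ _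
    obtain ⟨h1, h2, h3, -⟩ := (hU (d i)).1 i (hd i).2 (by simp)
    refine ⟨h1.sdiff isClosed_closure, sdiff_subset.trans h2, ?_, by simp [MM]⟩
    have hgood : (K i ∩ closure (MM B (A (s i)))).Finite := by
      by_contra hinf
      exact hPT _ (hsP i) ⟨i, hinf, hsi i⟩
    refine (h3.union hgood).subset ?_
    rintro y ⟨hyK, hy⟩
    by_cases hyU : y ∈ U (d i) i
    · right
      refine ⟨hyK, ?_⟩
      by_contra hyc
      exact hy ⟨hyU, hyc⟩
    · exact Or.inl ⟨hyK, hyU⟩
  · have key : ∀ i j, d i < d j →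
        Disjoint (U (d i) i \ closure (MM B (A (s i)))) (U (d j) j \ closure (MM B (A (s j)))) := by
      intro i j hij
      have h1 : j ∉ A (d i) := fun hj => absurd (hdmin j (d i) ⟨(hd i).1, hj⟩) (not_le.2 hij)
      have h2 : d i ≤ s j := hsmax j (d i) (hd i).1 h1
      rw [Set.disjoint_left]
      rintro y ⟨hy, -⟩ ⟨-, hy'⟩
      exact hy' (subset_closure (subset_MM (hmono h2 (hd i).2)
        (((hU (d i)).1 i (hd i).2 (by simp)).2.1 hy)))
    intro i _ j _ _ _ hij
    rcases lt_trichotomy (d i) (d j) with h1 | h1 | h1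
    · exact key i j h1
    · have h2 := (hU (d i)).2 i (hd i).2 j (h1 ▸ (hd j).2) (by simp) (by simp) hij
      dsimp only
      rw [← h1]
      exact h2.mono sdiff_subset sdiff_subset
    · exact (key j i h1).symm

end TFR
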