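import Pool.Agent.TFR.Pure

/-! The singular step. -/

set_option autoImplicit false

namespace TFR

open Set Topology Filter Cardinal TF
open Order (succ)

universe u v w

theorem mk_iUnion_le_of {I O : Type v} (f : O → Set I) {c : Cardinal.{v}} (hc : ℵ₀ ≤ c)
    (hO : #O ≤ c) (hf : ∀ o, #(f o) ≤ c) : #(⋃ o, f o) ≤ c := by
  refine (Cardinal.mk_iUnion_le _).trans ?_
  calc #O * ⨆ o, #(f o) ≤ c * c := mul_le_mul' hO (ciSup_le' hf)
    _ = c := Cardinal.mul_eq_self hc

variable {X : Type u} [TopologicalSpace X] {I : Type v} {K B : I → Set X}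

/-- A stage of the construction. -/
structure Stage (K B : I → Set X) {O : Type v} (g : O → Cardinal.{v}) where
  A : O → Set I
  U : O → I → Set X
  card : ∀ o, #(A o) ≤ g o
  pure : ∀ o, ∀ C : Set I, #C ≤ succ (g o) → Free K B (A o) C
  wit : ∀ o, Wit K B ∅ (A o) (U o)

theorem stage_step [T2Space X] [CompletelyNormalSpace X] (h : Sys K B) {O : Type v}
    (g : O → Cardinal.{v}) (hg : ∀ o, ℵ₀ ≤ g o) (hO : ∀ o, #O ≤ g o)
    (hfree : ∀ o, ∀ C : Set I, #C ≤ succ (g o) → Free K B ∅ C) (S : Stage K B g) :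
    ∃ S' : Stage K B g, (∀ o, S.A o ⊆ S'.A o) ∧ (∀ o, ∀ i ∈ S.A o, S'.U o i = S.U o i) ∧
      ∀ o p, ∀ i ∈ S.A p, ∀ b ∈ S.A o, (S.U p i ∩ B b).Nonempty → i ∈ S'.A o := by
  classical
  have h1 : ∀ o, ∃ A, (S.A o ∪ ⋃ p : O, ⋃ b : S.A o, {i | i ∈ S.A p ∧ (S.U p i ∩ B b).Nonempty}) ⊆ A ∧
      #A ≤ g o ∧ ∀ C : Set I, #C ≤ succ (g o) → Free K B A C := by
    intro o
    refine pure h (hg o) (hfree o) _ ?_
    refine (Cardinal.mk_union_le _ _).trans (Cardinal.add_le_of_le (hg o) (S.card o) ?_)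
    refine mk_iUnion_le_of _ (hg o) (hO o) fun p => ?_
    refine mk_iUnion_le_of _ (hg o) (S.card o) fun b => ?_
    exact ((S.wit p).hits h b).le_aleph0.trans (hg o)
  choose A hA hAc hAp using h1
  have h2 : ∀ o, Free K B (S.A o) (A o) := fun o =>
    S.pure o _ ((hAc o).trans (Order.le_succ _))
  choose W hW using h2
  refine ⟨⟨A, fun o i => if i ∈ S.A o then S.U o i else W o i, hAc, hAp, fun o => ?_⟩,
    fun o => subset_union_left.trans (hA o), fun o i hi => if_pos hi, fun o p i hi b hb hib =>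
      hA o (Or.inr (mem_iUnion.2 ⟨p, mem_iUnion.2 ⟨⟨b, hb⟩, hi, hib⟩⟩))⟩
  refine ⟨fun i hi _ => ?_, fun i hi j hj _ _ hij => ?_⟩
  · by_cases hiS : i ∈ S.A o
    · simp only [hiS, if_true]
      exact (S.wit o).1 i hiS (by simp)
    · simp only [hiS, if_false]
      obtain ⟨a1, a2, a3, -⟩ := (hW o).1 i hi hiS
      exact ⟨a1, a2, a3, by simp [MM]⟩
  · have key : ∀ i j, i ∈ S.A o → j ∈ A o → j ∉ S.A o → Disjoint (S.U o i) (W o j) := by
      intro i j hi hj hjS
      have a1 := ((S.wit o).1 i hi (by simp)).2.1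
      have a2 := ((hW o).1 j hj hjS).2.2.2
      exact (a2.mono_right (a1.trans (subset_MM hi))).symm
    by_cases hiS : i ∈ S.A o <;> by_cases hjS : j ∈ S.A o
    · simp only [hiS, hjS, if_true]
      exact (S.wit o).2 i hiS j hjS (by simp) (by simp) hij
    · simp only [hiS, hjS, if_true, if_false]
      exact key i j hiS hj hjS
    · simp only [hiS, hjS, if_true, if_false]
      exact (key j i hjS hi hiS).symm
    · simp only [hiS, hjS, if_false]
      exact (hW o).2 i hi j hj hiS hjS hij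

theorem sing [T2Space X] [CompletelyNormalSpace X] (h : Sys K B) (hsing : (#I).IsSingular)
    (hfree : ∀ C : Set I, #C < #I → Free K B ∅ C) : Free K B ∅ univ := by
  classical
  -- a decomposition
  obtain ⟨O, _, _, C, hO, hC, hcov⟩ : ∃ (O : Type v) (_ : LinearOrder O) (_ : WellFoundedLT O)
      (C : O → Set I), #O < #I ∧ (∀ o, #(C o) < #I) ∧ ∀ i, ∃ o, i ∈ C o := by
    obtain ⟨s, hs, hs'⟩ := Order.exists_cof_eq (#I).ord.ToType
    obtain ⟨x⟩ : Nonempty ((#I).ord.ToType ≃ I) := Cardinal.eq.1 (Cardinal.mk_ord_toType _)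
    refine ⟨s, inferInstance, inferInstance, fun o => x '' Iic (o : (#I).ord.ToType), ?_, ?_, ?_⟩
    · rw [hs', Ordinal.cof_toType]
      exact hsing.cof_ord_lt
    · intro o
      refine Cardinal.mk_image_le.trans_lt (mk_Iic_lt hsing.aleph0_le (fun a => ?_) _)
      have := Cardinal.mk_Iio_lt a (by simp)
      simpa using this
    · intro i
      obtain ⟨o, ho, hio⟩ := hs (x.symm i)
      exact ⟨⟨o, ho⟩, x.symm i, hio, by simp⟩
  have hlim : Order.IsSuccLimit (#I) := hsing.isSuccLimit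
  have hunc : ℵ₀ < #I := by
    refine lt_of_le_of_ne hsing.aleph0_le fun he => ?_
    rw [← he] at hsing
    exact Cardinal.not_isSingular_aleph0 hsing
  set g : O → Cardinal.{v} := fun o => max (max (#(C o)) (#O)) ℵ₀ with hgdef
  have hg : ∀ o, ℵ₀ ≤ g o := fun o => le_max_right _ _
  have hgO : ∀ o, #O ≤ g o := fun o => (le_max_right _ _).trans (le_max_left _ _)
  have hgC : ∀ o, #(C o) ≤ g o := fun o => (le_max_left _ _).trans (le_max_left _ _)
  have hgI : ∀ o, succ (g o) < #I := fun o =>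
    hlim.succ_lt (max_lt (max_lt (hC o) hO) hunc)
  have hfree' : ∀ o, ∀ D : Set I, #D ≤ succ (g o) → Free K B ∅ D := fun o D hD =>
    hfree D (hD.trans_lt (hgI o))
  obtain ⟨S0, hS0⟩ : ∃ S : Stage K B g, ∀ o, C o ⊆ S.A o := by
    have h1 : ∀ o, ∃ A, C o ⊆ A ∧ #A ≤ g o ∧ ∀ D : Set I, #D ≤ succ (g o) → Free K B A D :=
      fun o => pure h (hg o) (hfree' o) _ (hgC o)
    choose A hA hAc hAp using h1
    have h2 : ∀ o, Free K B ∅ (A o) := fun o => hfree' o _ ((hAc o).trans (Order.le_succ _))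
    choose U hU using h2
    exact ⟨⟨A, U, hAc, hAp, hU⟩, hA⟩
  choose nxt hn1 hn2 hn3 using fun S => stage_step h g hg hgO hfree' S
  set S : ℕ → Stage K B g := fun n => nxt^[n] S0 with hS
  have hSs : ∀ n, S (n + 1) = nxt (S n) := fun n => Function.iterate_succ_apply' _ _ _
  have hmono1 : ∀ n o, (S n).A o ⊆ (S (n + 1)).A o := fun n o => by
    rw [hSs]; exact hn1 _ o
  have hmono : ∀ o, Monotone fun n => (S n).A o := fun o => monotone_nat_of_le_succ fun n =>
    hmono1 n o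
  have hcoh : ∀ n k o, ∀ i ∈ (S n).A o, (S (n + k)).U o i = (S n).U o i := by
    intro n k o i hi
    induction k with
    | zero => rfl
    | succ k ih =>
      rw [← ih, ← add_assoc, hSs]
      exact hn2 _ o i (hmono o (Nat.le_add_right n k) hi)
  have hcoh' : ∀ n m o, ∀ i ∈ (S n).A o, i ∈ (S m).A o → (S m).U o i = (S n).U o i := by
    intro n m o i hi hi'
    rcases le_total n m with hnm | hnm
    · obtain ⟨k, rfl⟩ := Nat.exists_eq_add_of_le hnm
      exact hcoh n k o i hi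
    · obtain ⟨k, rfl⟩ := Nat.exists_eq_add_of_le hnm
      exact (hcoh m k o i hi').symm
  have hv : ∀ i, ∃ o, (∃ n, i ∈ (S n).A o) ∧ ∀ p, (∃ n, i ∈ (S n).A p) → o ≤ p := by
    intro i
    apply exists_least
    obtain ⟨o, ho⟩ := hcov i
    exact ⟨o, 0, hS0 o ho⟩
  choose v hv hvmin using hv
  choose n hn using hv
  refine ⟨fun i => (S (n i)).U (v i) i, fun i _ _ => ((S (n i)).wit (v i)).1 i (hn i) (by simp),
    fun i _ j _ _ _ hij => ?_⟩
  have key : ∀ i j, i ≠ j → v i ≤ v j →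
      Disjoint ((S (n i)).U (v i) i) ((S (n j)).U (v j) j) := by
    intro i j hij hvij
    set m := max (n i) (n j) with hm
    have hi : i ∈ (S m).A (v i) := hmono _ (le_max_left _ _) (hn i)
    have hj : j ∈ (S m).A (v j) := hmono _ (le_max_right _ _) (hn j)
    rw [← hcoh' (n i) m _ i (hn i) hi, ← hcoh' (n j) m _ j (hn j) hj]
    rcases eq_or_lt_of_le hvij with he | hlt
    · have hj' : j ∈ (S m).A (v i) := by rw [he]; exact hj
      have := ((S m).wit (v i)).2 i hi j hj' (by simp) (by simp) hij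
      rw [he] at this ⊢
      exact this
    · rw [Set.disjoint_left]
      intro y hyi hyj
      have h1 : y ∈ B i := (((S m).wit (v i)).1 i hi (by simp)).2.1 hyi
      have h2 : j ∈ (S (m + 1)).A (v i) := by
        rw [hSs]
        exact hn3 (S m) (v i) (v j) j hj i hi ⟨y, hyj, h1⟩
      exact absurd (hvmin j (v i) ⟨m + 1, h2⟩) (not_le.2 hlt)
  rcases le_total (v i) (v j) with h1 | h1
  · exact key i j hij h1
  · exact (key j i hij.symm h1).symm

end TFR
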